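import Pool.Agent.H75.Ov.Asm
import Pool.Agent.H75.Ov.Inv
import Pool.Agent.H75.Ov.Mid

/-!
# Far harmonic pairs in infinitely many directions characterise ellipses (MP_035beb_an, Q1)

The helper files `Pool/Agent/H75/Ov/*` use the library proof
`Pool.Graph.R_seed8.Results.MP_035beb_an.Ellipse` of the plain answer to Q1.
-/

open Topology Filter Set
open scoped LinearAlgebra.Projectivization

namespace Pool.Agent.Results.MP_035beb_an.FarHarmonicPairs

noncomputable section

open Classical in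
/-- The chord map `σ_P` of the curve `γ`: the other intersection point with `γ` of the line
through `P` and `x`; the point `x` itself if there is none. -/
def sigma (γ : Set (ℝ × ℝ)) (P x : ℝ × ℝ) : ℝ × ℝ :=
  if h : ∃ y ∈ γ, y ≠ x ∧ Collinear ℝ {P, x, y} then h.choose else x

/-- The two-pencil map `F_{γ,P,Q} = σ_Q ∘ σ_P`. -/
def pencilMap (γ : Set (ℝ × ℝ)) (P Q x : ℝ × ℝ) : ℝ × ℝ := sigma γ Q (sigma γ P x)

/-- The point `Q = A + q (B - A)` of the line `AB`. -/
def outer (A B : ℝ × ℝ) (q : ℝ) : ℝ × ℝ := A + q • (B - A)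

/-- The harmonic conjugate of `outer A B q` with respect to `A, B`: the point `A + p (B - A)` with
`p + q = 2 p q`. -/
def inner (A B : ℝ × ℝ) (q : ℝ) : ℝ × ℝ := A + (q / (2 * q - 1)) • (B - A)

/-- `c` is a parametrization of the closed curve `γ`, `1`-periodic, injective on a period, once
differentiable, with nowhere vanishing derivative. -/
def DiffParam (c : ℝ → ℝ × ℝ) (γ : Set (ℝ × ℝ)) : Prop :=
  Differentiable ℝ c ∧ Function.Periodic c 1 ∧ InjOn c (Ico 0 1) ∧ (∀ t, deriv c t ≠ 0) ∧
    range c = γ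

/-- `F_{γ,P,Q}` is carried to a projective transformation `M` of `ℝP¹` by an injective map
`h : γ → ℝP¹` which, in some regular once differentiable parameter of `γ`, is `t ↦ [v t]` with `v`
once differentiable and `v, v'` linearly independent (nonvanishing derivative). -/
def MobConj (γ : Set (ℝ × ℝ)) (P Q : ℝ × ℝ) : Prop :=
  ∃ c : ℝ → ℝ × ℝ, DiffParam c γ ∧
  ∃ (h : ℝ × ℝ → ℙ ℝ (ℝ × ℝ)) (M : (ℝ × ℝ) ≃ₗ[ℝ] (ℝ × ℝ)) (v : ℝ → ℝ × ℝ)
    (hv : ∀ t, v t ≠ 0), InjOn h γ ∧ Differentiable ℝ v ∧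
    (∀ t, h (c t) = Projectivization.mk ℝ (v t) (hv t)) ∧
    (∀ t, (v t).1 * (deriv v t).2 - (v t).2 * (deriv v t).1 ≠ 0) ∧
    ∀ x ∈ γ, h (pencilMap γ P Q x) = M • h x

/-- **Theorem.** Let `E` be an infinite set of slopes and let `K` be a compact strictly convex plane
set with interior points (no smoothness), with boundary `γ`. Suppose that for every chord `AB` of
`γ` with slope in `E` there are points `Q` on the line `AB`, arbitrarily far away, such that for the
harmonic conjugate `P` of `Q` with respect to `A, B` the map `F = F_{γ,P,Q}` is an involution or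
conjugate to a Mobius transformation. Then `γ` is an ellipse. -/
theorem result (E : Set ℝ) (hE : E.Infinite) (K : Set (ℝ × ℝ)) (hK : IsCompact K)
    (hs : StrictConvex ℝ K) (hne : (interior K).Nonempty)
    (hyp : ∀ A ∈ frontier K, ∀ B ∈ frontier K, A ≠ B →
      (∃ m ∈ E, B.2 - A.2 = m * (B.1 - A.1)) → ∀ r : ℝ, ∃ q : ℝ, r < |q| ∧
        ((∀ x ∈ frontier K, pencilMap (frontier K) (inner A B q) (outer A B q)
            (pencilMap (frontier K) (inner A B q) (outer A B q) x) = x) ∨
          MobConj (frontier K) (inner A B q) (outer A B q))) :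
    ∃ Φ : (ℝ × ℝ) ≃ᵃ[ℝ] (ℝ × ℝ), frontier K = Φ '' {p : ℝ × ℝ | p.1 ^ 2 + p.2 ^ 2 = 1} := by
  refine H75.Ov.ellipse_of_dirs hK hs hne hE fun m hm => ?_
  intro A hA B hB hAB hdet T hT T' hT' hmax hmin
  refine H75.Ov.midpoint_on_diameter' hK hs hA hB hAB ?_ hT hT' hmax hmin
  intro r
  obtain ⟨q, hq, hcase⟩ := hyp A hA B hB hAB ⟨m, hm, by
    simp only [Ellipse.det2, Prod.snd_sub, Prod.fst_sub] at hdet
    linarith⟩ (max r 1)
  refine ⟨q, lt_of_le_of_lt (le_max_left _ _) hq, ?_⟩
  rcases hcase with hinvol | hmob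
  · exact hinvol
  obtain ⟨c, ⟨hd, hper, hinj, hreg, hr'⟩, h, M, v, hv, hinjh, hvd, hhv, hW, hconj⟩ := hmob
  have hr : frontier K = range c := hr'.symm
  rw [hr] at hinjh
  have hq1 : 1 < |q| := lt_of_le_of_lt (le_max_right _ _) hq
  have hharm : 2 * q - 1 ≠ 0 → q / (2 * q - 1) + q = 2 * (q / (2 * q - 1)) * q := by
    intro h0
    have h2 := div_mul_cancel₀ q h0
    generalize q / (2 * q - 1) = p at h2 ⊢
    linarith
  rcases lt_abs.1 hq1 with h1 | h1
  · have hq2 : 0 < 2 * q - 1 := by linarith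
    exact H75.Ov.involution' hK hs hd hper hinj hreg hr hA hB hAB (p := q / (2 * q - 1)) (q := q)
      (div_pos (by linarith) hq2) (by rw [div_lt_one hq2]; linarith) h1
      (hharm hq2.ne') rfl rfl hv hinjh hvd hhv hW hconj
  · have hq2 : 2 * q - 1 < 0 := by linarith
    have hq3 : 2 * q - 1 ≠ 0 := hq2.ne
    refine H75.Ov.involution' hK hs hd hper hinj hreg hr hB hA hAB.symm
      (p := 1 - q / (2 * q - 1)) (q := 1 - q)
      (by rw [sub_pos, div_lt_one_of_neg hq2]; linarith)
      (by
        have : 0 < q / (2 * q - 1) := div_pos_of_neg_of_neg (by linarith) hq2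
        linarith) (by linarith)
      (by
        have h2 := hharm hq3
        generalize q / (2 * q - 1) = p at h2 ⊢
        linarith) ?_ ?_ hv hinjh hvd hhv hW hconj
    · ext
      · simp only [Prod.fst_add, Prod.fst_sub, Prod.smul_fst, smul_eq_mul]; ring
      · simp only [Prod.snd_add, Prod.snd_sub, Prod.smul_snd, smul_eq_mul]; ring
    · ext
      · simp only [Prod.fst_add, Prod.fst_sub, Prod.smul_fst, smul_eq_mul]; ring
      · simp only [Prod.snd_add, Prod.snd_sub, Prod.smul_snd, smul_eq_mul]; ring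

end

end Pool.Agent.Results.MP_035beb_an.FarHarmonicPairs
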